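import Pool.Agent.H11.NZ.Targets
import Mathlib.GroupTheory.SpecificGroups.Alternating.Simple

/-!
# nz_modules PTR
-/

set_option autoImplicit false

open Equiv (Perm)

namespace Pool.Agent.H89.NZ.PTR

open Pool.Agent.H11.NZ Pool.Agent.H11.NY

/-- the intersection with `M` is in the kernel -/
theorem inf_le_ker {L Ω : Type} [Group L] [Fintype Ω] [DecidableEq Ω]
    {ψ : L →* alternatingGroup Ω} {X : Subgroup L} (h5 : 5 ≤ Fintype.card Ω) (hX : XMin ψ X)
    {M : Subgroup L} (hXM : ¬ X ≤ M) (hK : ψ.ker ⊓ X ≤ M) (hKM : ψ.ker ⊔ M = ⊤) :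
    X ⊓ M ≤ ψ.ker := by
  obtain ⟨hXn, hXs, hmin⟩ := hX
  have hCK : ∀ k ∈ ψ.ker, ∀ x ∈ X ⊓ M, k * x * k⁻¹ ∈ X ⊓ M := by
    intro k hk x hx
    obtain ⟨hxX, hxM⟩ := Subgroup.mem_inf.1 hx
    have h1 : k * x * k⁻¹ ∈ X := hXn.conj_mem x hxX k
    have h2 : x⁻¹ * (k * x * k⁻¹) ∈ ψ.ker ⊓ X := by
      refine Subgroup.mem_inf.2 ⟨?_, X.mul_mem (X.inv_mem hxX) h1⟩
      rw [MonoidHom.mem_ker] at hk ⊢
      rw [map_mul, map_mul, map_mul, map_inv, map_inv, hk]
      group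
    refine Subgroup.mem_inf.2 ⟨h1, ?_⟩
    have h3 := M.mul_mem hxM (hK h2)
    rwa [mul_inv_cancel_left] at h3
  have hCM : ∀ k ∈ M, ∀ x ∈ X ⊓ M, k * x * k⁻¹ ∈ X ⊓ M := by
    intro k hk x hx
    obtain ⟨hxX, hxM⟩ := Subgroup.mem_inf.1 hx
    exact Subgroup.mem_inf.2 ⟨hXn.conj_mem x hxX k, M.mul_mem (M.mul_mem hk hxM) (M.inv_mem hk)⟩
  have hnorm : ∀ k : L, ∀ x ∈ X ⊓ M, k * x * k⁻¹ ∈ X ⊓ M := by
    intro k
    have hk : k ∈ ψ.ker ⊔ M := by
      rw [hKM]
      exact Subgroup.mem_top k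
    rw [Subgroup.sup_eq_closure] at hk
    induction hk using Subgroup.closure_induction'' with
    | mem y hy =>
      rcases hy with hy | hy
      · exact hCK y hy
      · exact hCM y hy
    | inv_mem y hy =>
      rcases hy with hy | hy
      · exact hCK _ (ψ.ker.inv_mem hy)
      · exact hCM _ (M.inv_mem hy)
    | one =>
      intro x hx
      simpa using hx
    | mul y z _ _ ihy ihz =>
      intro x hx
      have h1 := ihy _ (ihz x hx)
      have h2 : y * z * x * (y * z)⁻¹ = y * (z * x * z⁻¹) * y⁻¹ := by group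
      rw [h2]
      exact h1
  have hne : (X ⊓ M).map ψ ≠ ⊤ := by
    intro htop
    have h1 := hmin (X ⊓ M) inf_le_left (fun x _ y hy => hnorm x y hy) htop
    exact hXM (h1 ▸ inf_le_right)
  have hsurj : Function.Surjective ψ := by
    intro σ
    have h1 : σ ∈ X.map ψ := by rw [hXs]; exact Subgroup.mem_top σ
    obtain ⟨x, _, hx⟩ := Subgroup.mem_map.1 h1
    exact ⟨x, hx⟩
  have hn : (X ⊓ M).Normal := ⟨fun x hx k => hnorm k x hx⟩
  have hmn : ((X ⊓ M).map ψ).Normal := hn.map ψ hsurj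
  have hs : IsSimpleGroup (alternatingGroup Ω) :=
    alternatingGroup.isSimpleGroup (by rw [Nat.card_eq_fintype_card]; exact h5)
  rcases hs.eq_bot_or_eq_top_of_normal _ hmn with h | h
  · rw [Subgroup.map_eq_bot_iff] at h
    exact h
  · exact absurd h hne

open Classical in
theorem pf_ptr (hcls : T_CLS) : T_PTR := by
  intro e
  refine ⟨2 * (e + 2) + 7, ?_⟩
  intro L Ω _ _ _ _ ψ X hX M hXM hK hKM q p a h hp htcs
  obtain ⟨hq, hq5, hqe, hpp, hpe, haq, hah, hhp, ha1, hh, hsup⟩ := hp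
  -- large supports
  have hsa : 2 * (e + 2) + 7 ≤ (ψ a : Perm Ω).support.card := by
    have := hsup 1 0
    rw [pow_one, pow_zero, mul_one] at this
    exact this ha1
  have hsk : ∀ κ : ℕ, 2 * (e + 2) + 7 ≤ (ψ (h * a ^ κ) : Perm Ω).support.card := by
    intro κ
    have h1 := hsup κ 1
    have hc : a ^ κ * h = h * a ^ κ := (Commute.pow_left (show Commute a h from hah) κ)
    rw [pow_one, hc] at h1
    apply h1
    intro h2
    apply hh
    have h3 : h = (a ^ κ)⁻¹ := eq_inv_of_mul_eq_one_left h2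
    rw [h3]
    exact Subgroup.inv_mem _ (Subgroup.pow_mem _ (Subgroup.mem_zpowers a) κ)
  have hcard : 2 * (e + 2) + 7 ≤ Fintype.card Ω := hsa.trans (Finset.card_le_univ _)
  have hC := inf_le_ker (by omega) hX hXM hK hKM
  obtain ⟨hXn, hXs, -⟩ := hX
  set t : ℕ → L := fun κ => if κ < q then h * a ^ κ else a with ht
  have hst : ∀ κ : ℕ, 2 * (e + 2) + 7 ≤ (ψ (t κ) : Perm Ω).support.card := by
    intro κ
    simp only [ht]
    split_ifs
    · exact hsk κ
    · exact hsa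
  let A : ℕ → Finset (alternatingGroup Ω) := fun κ =>
    Finset.univ.filter fun σ => ∃ x ∈ X, ψ x = σ ∧ x⁻¹ * t κ * x ∈ M
  have hcomm : ∀ κ : ℕ, ∀ σ ∈ A κ, ∀ σ' ∈ A κ, (σ' * σ⁻¹) * ψ (t κ) = ψ (t κ) * (σ' * σ⁻¹) := by
    intro κ σ hσ σ' hσ'
    obtain ⟨x, hxX, rfl, hx⟩ := (Finset.mem_filter.1 hσ).2
    obtain ⟨y, hyX, rfl, hy⟩ := (Finset.mem_filter.1 hσ').2
    have h1 : (x⁻¹ * t κ * x) * (y⁻¹ * t κ * y)⁻¹ ∈ X ⊓ M := by
      refine Subgroup.mem_inf.2 ⟨?_, M.mul_mem hx (M.inv_mem hy)⟩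
      have h2 : (x⁻¹ * t κ * x) * (y⁻¹ * t κ * y)⁻¹ =
          x⁻¹ * (t κ * (x * y⁻¹) * (t κ)⁻¹) * y := by group
      rw [h2]
      exact X.mul_mem (X.mul_mem (X.inv_mem hxX)
        (hXn.conj_mem _ (X.mul_mem hxX (X.inv_mem hyX)) _)) hyX
    have h3 := hC h1
    rw [MonoidHom.mem_ker, map_mul, map_inv, mul_inv_eq_one] at h3
    simp only [map_mul, map_inv] at h3
    -- `ψ x⁻¹ τ ψ x = ψ y⁻¹ τ ψ y`
    calc ψ y * (ψ x)⁻¹ * ψ (t κ) = ψ y * ((ψ x)⁻¹ * ψ (t κ) * ψ x) * (ψ x)⁻¹ := by group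
      _ = ψ y * ((ψ y)⁻¹ * ψ (t κ) * ψ y) * (ψ x)⁻¹ := by rw [h3]
      _ = ψ (t κ) * (ψ y * (ψ x)⁻¹) := by group
  have hA : ∀ κ : ℕ, Fintype.card Ω * (A κ).card ≤ 2 * Nat.card (alternatingGroup Ω) := by
    intro κ
    have h1 := hcls Ω 1 (ψ (t κ)) (Subgroup.centralizer {ψ (t κ)})
      (by have := hst κ; omega) (fun y hy => Subgroup.mem_centralizer_singleton_iff.1 hy)
    rw [pow_one, pow_one] at h1
    refine le_trans (Nat.mul_le_mul_left _ ?_) h1
    rcases (A κ).eq_empty_or_nonempty with h0 | ⟨σ, hσ⟩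
    · rw [h0, Finset.card_empty]
      exact Nat.zero_le _
    · have h2 : ((A κ).image fun σ' => σ' * σ⁻¹).card = (A κ).card :=
        Finset.card_image_of_injective _ (mul_left_injective σ⁻¹)
      rw [← h2, ← Set.ncard_coe_finset]
      have h3 : Nat.card (Subgroup.centralizer {ψ (t κ)}) =
          (Subgroup.centralizer {ψ (t κ)} : Set (alternatingGroup Ω)).ncard :=
        Nat.card_coe_set_eq _
      rw [h3]
      refine Set.ncard_le_ncard ?_ (Set.toFinite _)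
      intro ρ hρ
      obtain ⟨σ', hσ', rfl⟩ := Finset.mem_image.1 (Finset.mem_coe.1 hρ)
      exact Subgroup.mem_centralizer_singleton_iff.2 (hcomm κ σ hσ σ' hσ')
  have hcov : (Finset.univ : Finset (alternatingGroup Ω)) ⊆
      (Finset.range (q + 1)).biUnion A := by
    intro σ _
    have h1 : σ ∈ X.map ψ := by rw [hXs]; exact Subgroup.mem_top σ
    obtain ⟨x, hx, rfl⟩ := Subgroup.mem_map.1 h1
    rw [Finset.mem_biUnion]
    rcases htcs x with h2 | ⟨κ, hκ, h2⟩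
    · refine ⟨q, Finset.mem_range.2 (Nat.lt_succ_self q), Finset.mem_filter.2
        ⟨Finset.mem_univ _, x, hx, rfl, ?_⟩⟩
      simp only [ht, lt_irrefl, if_false]
      exact h2
    · refine ⟨κ, Finset.mem_range.2 (by omega), Finset.mem_filter.2
        ⟨Finset.mem_univ _, x, hx, rfl, ?_⟩⟩
      simp only [ht, hκ, if_true]
      exact h2
  have h1 := (Finset.card_le_card hcov).trans Finset.card_biUnion_le
  rw [Finset.card_univ, ← Nat.card_eq_fintype_card] at h1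
  have h2 : Fintype.card Ω * Nat.card (alternatingGroup Ω) ≤
      (q + 1) * (2 * Nat.card (alternatingGroup Ω)) := by
    calc Fintype.card Ω * Nat.card (alternatingGroup Ω)
        ≤ Fintype.card Ω * ∑ κ ∈ Finset.range (q + 1), (A κ).card := Nat.mul_le_mul_left _ h1
      _ = ∑ κ ∈ Finset.range (q + 1), Fintype.card Ω * (A κ).card := by rw [Finset.mul_sum]
      _ ≤ ∑ κ ∈ Finset.range (q + 1), 2 * Nat.card (alternatingGroup Ω) :=
          Finset.sum_le_sum fun κ _ => hA κ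
      _ = (q + 1) * (2 * Nat.card (alternatingGroup Ω)) := by
          rw [Finset.sum_const, Finset.card_range, smul_eq_mul]
  have h3 : 0 < Nat.card (alternatingGroup Ω) := Nat.card_pos
  have h4 : Fintype.card Ω ≤ 2 * (q + 1) := by
    have h5 : Fintype.card Ω * Nat.card (alternatingGroup Ω) ≤
        2 * (q + 1) * Nat.card (alternatingGroup Ω) := by
      calc _ ≤ _ := h2
        _ = _ := by ring
    exact Nat.le_of_mul_le_mul_right h5 h3
  omega

end Pool.Agent.H89.NZ.PTR
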